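import Pool.Agent.BOG.Stmts

set_option autoImplicit false

/-!
BOG, row CNT: pigeonhole for the lines through a point of the projective plane over `ZMod p`.
-/

namespace Pool.Agent.BOG.H70

open Pool.Agent.Helper61_Gamma (Dt)

theorem pig (p : ℕ) [Fact p.Prime] (x y : Fin (p + 2) → ZMod p) :
    ∃ i j, i ≠ j ∧ x i * y j - y i * x j = 0 := by
  classical
  have hc : Fintype.card (Option (ZMod p)) < Fintype.card (Fin (p + 2)) := by
    rw [Fintype.card_option, ZMod.card, Fintype.card_fin]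
    omega
  obtain ⟨i, j, hij, h⟩ := Fintype.exists_ne_map_eq_of_card_lt
    (fun i => if x i = 0 then none else some (y i / x i)) hc
  refine ⟨i, j, hij, ?_⟩
  by_cases hi : x i = 0
  · by_cases hj : x j = 0
    · rw [hi, hj]
      ring
    · simp [hi, hj] at h
  · by_cases hj : x j = 0
    · simp [hi, hj] at h
    · simp only [hi, hj, if_false, Option.some.injEq] at h
      rw [div_eq_div_iff hi hj] at h
      linear_combination -h

/-- CNT -/
theorem cnt : CntStmt := by
  intro p _ n v hv P f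
  obtain ⟨a, ha⟩ : ∃ a, v P a ≠ 0 := by
    by_contra hall
    push Not at hall
    exact hv P (funext hall)
  fin_cases a
  · have ha' : v P 0 ≠ 0 := ha
    obtain ⟨i, j, hij, h⟩ := pig p (fun i => v (f i) 1 * v P 0 - v (f i) 0 * v P 1)
      (fun i => v (f i) 2 * v P 0 - v (f i) 0 * v P 2)
    refine ⟨i, j, hij, ?_⟩
    apply (mul_eq_zero.mp (?_ : v P 0 * Dt (v P) (v (f i)) (v (f j)) = 0)).resolve_left ha'
    rw [Dt]
    linear_combination h
  · have ha' : v P 1 ≠ 0 := ha
    obtain ⟨i, j, hij, h⟩ := pig p (fun i => v (f i) 2 * v P 1 - v (f i) 1 * v P 2)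
      (fun i => v (f i) 0 * v P 1 - v (f i) 1 * v P 0)
    refine ⟨i, j, hij, ?_⟩
    apply (mul_eq_zero.mp (?_ : v P 1 * Dt (v P) (v (f i)) (v (f j)) = 0)).resolve_left ha'
    rw [Dt]
    linear_combination h
  · have ha' : v P 2 ≠ 0 := ha
    obtain ⟨i, j, hij, h⟩ := pig p (fun i => v (f i) 0 * v P 2 - v (f i) 2 * v P 0)
      (fun i => v (f i) 1 * v P 2 - v (f i) 2 * v P 1)
    refine ⟨i, j, hij, ?_⟩
    apply (mul_eq_zero.mp (?_ : v P 2 * Dt (v P) (v (f i)) (v (f j)) = 0)).resolve_left ha'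
    rw [Dt]
    linear_combination h

end Pool.Agent.BOG.H70
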