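import Pool.Agent.BOG.Stmts

set_option autoImplicit false

/-!
BOG, row GPA: the first gap.
-/

namespace Pool.Agent.BOG.H70

open Polynomial Finset

universe v

/-- many divisors bound the degree -/
theorem card_mul_le {K : Type v} [Field K] {n : ℕ} (m : Fin n → K) (hm : Function.Injective m)
    (ν D : ℕ) (g : K[X]) (hg : g ≠ 0) (hD : g.natDegree ≤ D) (S : Finset (Fin n))
    (hS : ∀ P ∈ S, (X - C (m P)) ^ ν ∣ g) : S.card * ν ≤ D := by
  have h1 : (∏ P ∈ S, (X - C (m P)) ^ ν) ∣ g := by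
    apply Finset.prod_dvd_of_coprime
    · intro P _ Q _ hPQ
      exact (Polynomial.pairwise_coprime_X_sub_C hm hPQ).pow
    · exact hS
  have h2 := Polynomial.natDegree_le_of_dvd h1 hg
  have h3 : (∏ P ∈ S, (X - C (m P)) ^ ν).natDegree = S.card * ν := by
    rw [Polynomial.natDegree_prod_of_monic _ _ fun P _ => (monic_X_sub_C (m P)).pow ν]
    simp [natDegree_pow]
  rw [h3] at h2
  exact h2.trans hD

/-- degree bound from membership -/
theorem natDegree_le {K : Type v} [Field K] {f : K[X]} {j : ℕ} (h : f ∈ degreeLT K (j + 1)) :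
    f.natDegree ≤ j := by
  rw [mem_degreeLT] at h
  rcases eq_or_ne f 0 with h0 | h0
  · rw [h0, natDegree_zero]
    exact Nat.zero_le _
  · exact Nat.lt_succ_iff.mp ((natDegree_lt_iff_degree_lt h0).mpr h)

/-- GPA -/
theorem gpa (sta : StaStmt.{v}) (der : DerStmt.{v}) (cst : CstStmt.{v}) : GpaStmt.{v} := by
  classical
  intro K _ n k m c ν a1 a2 a3 hm hk hkn hν h12 h23 hsum hfr hch hw
  by_contra hcon
  have h0 : a1 + n ≤ a2 := by omega
  obtain ⟨θ, hθ, hθ0, hst⟩ := sta K n m c ν a1 a2 a3 h12 h23 hfr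
  have h1 := der K n m c ν a1 θ hθ
  obtain ⟨q, hq⟩ := hst (a1 + n) h0 _ h1
  have hPi : (∏ P, (X - C (m P)) : K[X]) ≠ 0 := by
    rw [Finset.prod_ne_zero_iff]
    intro P _
    exact X_sub_C_ne_zero _
  have hD : ∀ a, (θ a).natDegree ≤ a1 := fun a => natDegree_le (hθ.1 a)
  obtain ⟨w, g, hw0, hg0, hwg⟩ := cst K θ a1 hθ0 hD (fun q hq1 hq2 => hch q hq1 (by omega)) (by
    intro a b
    apply mul_left_cancel₀ hPi
    have ha := hq a
    have hb := hq b
    linear_combination (θ b) * ha - (θ a) * hb)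
  obtain ⟨a, ha⟩ : ∃ a, w a ≠ 0 := by
    by_contra hall
    push Not at hall
    exact hw0 (funext hall)
  have hgD : g.natDegree ≤ a1 := by
    have h2 := hD a
    rw [hwg a, natDegree_C_mul ha] at h2
    exact h2
  let Bad : Finset (Fin n) := univ.filter fun P => w 0 - m P * w 1 - c P * w 2 = 0
  have hBad : Bad.card ≤ k + 1 := by
    have h2 := hw w hw0
    rw [Set.ncard_eq_toFinset_card'] at h2
    refine le_trans (le_of_eq ?_) h2
    congr 1
    ext P
    simp [Bad]
  have hgood : ∀ P ∈ Badᶜ, (X - C (m P)) ^ ν ∣ g := by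
    intro P hP
    have h2 : w 0 - m P * w 1 - c P * w 2 ≠ 0 := by
      intro h3
      rw [mem_compl] at hP
      exact hP (by simp [Bad, h3])
    have h3 := hθ.2 P
    have h4 : dot1 (m P) (c P) θ = C (w 0 - m P * w 1 - c P * w 2) * g := by
      simp only [dot1, hwg, C_sub, C_mul]
      ring
    rw [h4] at h3
    have h5 : g = C (w 0 - m P * w 1 - c P * w 2)⁻¹ * (C (w 0 - m P * w 1 - c P * w 2) * g) := by
      rw [← mul_assoc, ← C_mul, inv_mul_cancel₀ h2, C_1, one_mul]
    rw [h5]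
    exact Dvd.dvd.mul_left h3 _
  have h2 := card_mul_le m hm ν a1 g hg0 hgD Badᶜ hgood
  have h3 : n ≤ Badᶜ.card + (k + 1) := by
    have h4 := Finset.card_compl_add_card Bad
    rw [Fintype.card_fin] at h4
    omega
  have h4 : (n - (k + 1)) * ν ≤ a1 := le_trans (Nat.mul_le_mul_right ν (by omega)) h2
  have h5 : 3 * ((n - (k + 1)) * ν) ≤ n * ν := by omega
  have h6 : 3 * (n - (k + 1)) ≤ n := by
    have h7 : 3 * (n - (k + 1)) * ν ≤ n * ν := by
      rw [mul_assoc]
      exact h5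
    exact Nat.le_of_mul_le_mul_right h7 (by omega)
  omega

end Pool.Agent.BOG.H70
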