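import Pool.Agent.Helper70_BOG.GPA

set_option autoImplicit false

/-!
BOG, row GPB: the second gap.
-/

namespace Pool.Agent.BOG.H70

open Polynomial Finset

universe v

/-- GPB -/
theorem gpb (stb : StbStmt.{v}) (der : DerStmt.{v}) (cst : CstStmt.{v}) : GpbStmt.{v} := by
  classical
  intro K _ n m c ν a1 a2 a3 hm hn hν h12 h23 hsum hfr hch
  by_contra hcon
  have h0 : a2 + n ≤ a3 := by omega
  obtain ⟨s, hs, t, ht, hind, hst⟩ := stb K n m c ν a1 a2 a3 h12 h23 hfr
  obtain ⟨q11, q12, hq1⟩ := hst (a1 + n) (by omega) _ (der K n m c ν a1 s hs)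
  obtain ⟨q21, q22, hq2⟩ := hst (a2 + n) h0 _ (der K n m c ν a2 t ht)
  have hPi : (∏ P, (X - C (m P)) : K[X]) ≠ 0 := by
    rw [Finset.prod_ne_zero_iff]
    intro P _
    exact X_sub_C_ne_zero _
  set Pi : K[X] := ∏ P, (X - C (m P)) with hPidef
  have hsD : ∀ a, (s a).natDegree ≤ a1 := fun a => natDegree_le (hs.1 a)
  have htD : ∀ a, (t a).natDegree ≤ a2 := fun a => natDegree_le (ht.1 a)
  let κ : Fin 3 → K[X] := ![s 1 * t 2 - s 2 * t 1, s 2 * t 0 - s 0 * t 2, s 0 * t 1 - s 1 * t 0]
  have k0 : κ 0 = s 1 * t 2 - s 2 * t 1 := rfl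
  have k1 : κ 1 = s 2 * t 0 - s 0 * t 2 := rfl
  have k2 : κ 2 = s 0 * t 1 - s 1 * t 0 := rfl
  have hmul : ∀ a b, (s a * t b).natDegree ≤ a1 + a2 := fun a b =>
    (natDegree_mul_le).trans (Nat.add_le_add (hsD a) (htD b))
  have hκD : ∀ a, (κ a).natDegree ≤ a1 + a2 := by
    intro a
    fin_cases a
    · exact (natDegree_sub_le_of_le (hmul 1 2) (hmul 2 1)).trans (le_of_eq (max_self _))
    · exact (natDegree_sub_le_of_le (hmul 2 0) (hmul 0 2)).trans (le_of_eq (max_self _))
    · exact (natDegree_sub_le_of_le (hmul 0 1) (hmul 1 0)).trans (le_of_eq (max_self _))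
  have hκ0 : κ ≠ 0 := by
    intro h
    have e0 : s 1 * t 2 - s 2 * t 1 = 0 := by rw [← k0, h]; rfl
    have e1 : s 2 * t 0 - s 0 * t 2 = 0 := by rw [← k1, h]; rfl
    have e2 : s 0 * t 1 - s 1 * t 0 = 0 := by rw [← k2, h]; rfl
    obtain ⟨a, b, hab⟩ := hind
    apply hab
    fin_cases a <;> fin_cases b <;> simp only [Fin.zero_eta, Fin.mk_one, Fin.reduceFinMk] <;>
      first
        | rfl
        | linear_combination e0
        | linear_combination -e0
        | linear_combination e1
        | linear_combination -e1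
        | linear_combination e2
        | linear_combination -e2
  have hder : ∀ a, Pi * derivative (κ a) = (q11 + q22) * κ a := by
    intro a
    fin_cases a
    · show Pi * derivative (s 1 * t 2 - s 2 * t 1) = (q11 + q22) * (s 1 * t 2 - s 2 * t 1)
      rw [derivative_sub, derivative_mul, derivative_mul]
      have e1 := hq1 1
      have e2 := hq1 2
      have f1 := hq2 1
      have f2 := hq2 2
      linear_combination (t 2) * e1 - (t 1) * e2 + (s 1) * f2 - (s 2) * f1
    · show Pi * derivative (s 2 * t 0 - s 0 * t 2) = (q11 + q22) * (s 2 * t 0 - s 0 * t 2)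
      rw [derivative_sub, derivative_mul, derivative_mul]
      have e1 := hq1 2
      have e2 := hq1 0
      have f1 := hq2 2
      have f2 := hq2 0
      linear_combination (t 0) * e1 - (t 2) * e2 + (s 2) * f2 - (s 0) * f1
    · show Pi * derivative (s 0 * t 1 - s 1 * t 0) = (q11 + q22) * (s 0 * t 1 - s 1 * t 0)
      rw [derivative_sub, derivative_mul, derivative_mul]
      have e1 := hq1 0
      have e2 := hq1 1
      have f1 := hq2 0
      have f2 := hq2 1
      linear_combination (t 1) * e1 - (t 0) * e2 + (s 0) * f2 - (s 1) * f1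
  have h3 : 3 * (a1 + a2) ≤ 2 * (n * ν) := by omega
  obtain ⟨w, g, hw0, hg0, hwg⟩ := cst K κ (a1 + a2) hκ0 hκD
    (fun q hq1 hq2 => hch q hq1 (by omega)) (by
    intro a b
    apply mul_left_cancel₀ hPi
    have ha := hder a
    have hb := hder b
    linear_combination (κ b) * ha - (κ a) * hb)
  obtain ⟨a, ha⟩ : ∃ a, w a ≠ 0 := by
    by_contra hall
    push Not at hall
    exact hw0 (funext hall)
  have hgD : g.natDegree ≤ a1 + a2 := by
    have h2 := hκD a
    rw [hwg a, natDegree_C_mul ha] at h2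
    exact h2
  -- the components of `u_P × w`
  have hdiv : ∀ (r : K) (P : Fin n), r ≠ 0 → (X - C (m P)) ^ ν ∣ C r * g →
      (X - C (m P)) ^ ν ∣ g := by
    intro r P hr h
    have h5 : g = C r⁻¹ * (C r * g) := by
      rw [← mul_assoc, ← C_mul, inv_mul_cancel₀ hr, C_1, one_mul]
    rw [h5]
    exact Dvd.dvd.mul_left h _
  have hcomp : ∀ P : Fin n, ¬ (X - C (m P)) ^ ν ∣ g →
      w 1 = - m P * w 0 ∧ w 2 = - c P * w 0 := by
    intro P hP
    have hs2 := hs.2 P
    have ht2 := ht.2 P
    have key : ∀ a, (X - C (m P)) ^ ν ∣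
        s a * dot1 (m P) (c P) t - t a * dot1 (m P) (c P) s := fun a =>
      dvd_sub (Dvd.dvd.mul_left ht2 _) (Dvd.dvd.mul_left hs2 _)
    have g0 := hwg 0
    have g1 := hwg 1
    have g2 := hwg 2
    rw [k0] at g0
    rw [k1] at g1
    rw [k2] at g2
    constructor
    · by_contra hne
      apply hP
      apply hdiv (w 1 + m P * w 0) P (by
        intro h
        apply hne
        linear_combination h)
      have h4 := key 2
      have h5 : s 2 * dot1 (m P) (c P) t - t 2 * dot1 (m P) (c P) s =
          C (w 1 + m P * w 0) * g := by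
        simp only [dot1, C_add, C_mul]
        linear_combination g1 + C (m P) * g0
      rw [← h5]
      exact h4
    · by_contra hne
      apply hP
      apply hdiv (w 2 + c P * w 0) P (by
        intro h
        apply hne
        linear_combination h)
      have h4 := key 1
      have h5 : s 1 * dot1 (m P) (c P) t - t 1 * dot1 (m P) (c P) s =
          - (C (w 2 + c P * w 0) * g) := by
        simp only [dot1, C_add, C_mul]
        linear_combination -g2 - C (c P) * g0
      rw [h5, dvd_neg] at h4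
      exact h4
  let Bad : Finset (Fin n) := univ.filter fun P => ¬ (X - C (m P)) ^ ν ∣ g
  have hBad : Bad.card ≤ 1 := by
    rw [Finset.card_le_one]
    intro P hP Q hQ
    obtain ⟨p1, p2⟩ := hcomp P (by simpa [Bad] using hP)
    obtain ⟨r1, r2⟩ := hcomp Q (by simpa [Bad] using hQ)
    apply hm
    have hw00 : w 0 ≠ 0 := by
      intro h
      apply hw0
      funext i
      fin_cases i
      · exact h
      · show w 1 = 0
        rw [p1, h, mul_zero]
      · show w 2 = 0
        rw [p2, h, mul_zero]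
    have h4 : (m P - m Q) * w 0 = 0 := by linear_combination p1 - r1
    rcases mul_eq_zero.mp h4 with h5 | h5
    · exact sub_eq_zero.mp h5
    · exact absurd h5 hw00
  have hgood : ∀ P ∈ Badᶜ, (X - C (m P)) ^ ν ∣ g := by
    intro P hP
    by_contra h
    rw [mem_compl] at hP
    exact hP (by simp [Bad, h])
  have h2 := card_mul_le m hm ν (a1 + a2) g hg0 hgD Badᶜ hgood
  have h4 : n ≤ Badᶜ.card + 1 := by
    have h4 := Finset.card_compl_add_card Bad
    rw [Fintype.card_fin] at h4
    omega
  have h5 : (n - 1) * ν ≤ a1 + a2 := le_trans (Nat.mul_le_mul_right ν (by omega)) h2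
  have h6 : n * ν = (n - 1) * ν + ν := by
    obtain ⟨k, rfl⟩ : ∃ k, n = k + 1 := ⟨n - 1, by omega⟩
    rw [Nat.add_sub_cancel]
    ring
  have h7 : 4 * ν ≤ n * ν := Nat.mul_le_mul_right ν hn
  omega

end Pool.Agent.BOG.H70
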